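import Mathlib

open Filter Topology
open scoped ENNReal

universe u v w

namespace Pool.Agent.Results.MP_d7144b_an.LimitInfinite

/-- A `p`-norm on the real vector space `Z` for which `Z` is a `p`-Banach space. -/
structure PBanach (p : ℝ) (Z : Type v) [AddCommGroup Z] [Module ℝ Z] where
  /-- the `p`-norm -/
  nrm : Z → ℝ
  nonneg : ∀ x, 0 ≤ nrm x
  pos : ∀ x, x ≠ 0 → 0 < nrm x
  smul : ∀ (c : ℝ) (x : Z), nrm (c • x) = |c| * nrm x
  add_le : ∀ x y, nrm (x + y) ^ p ≤ nrm x ^ p + nrm y ^ p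
  complete : ∀ s : ℕ → Z,
    (∀ ε : ℝ, 0 < ε → ∃ n₀, ∀ m ≥ n₀, ∀ n ≥ n₀, nrm (s m - s n) ^ p < ε) →
      ∃ z, ∀ ε : ℝ, 0 < ε → ∃ n₀, ∀ n ≥ n₀, nrm (s n - z) ^ p < ε

/-- The Lipschitz constant of a map from a metric space into a `p`-Banach space. -/
noncomputable def lipConst {p : ℝ} {Z : Type v} [AddCommGroup Z] [Module ℝ Z]
    (ν : PBanach p Z) {N : Type u} [MetricSpace N] (f : N → Z) : ℝ≥0∞ :=
  ⨆ (x : N) (y : N) (_ : x ≠ y), ENNReal.ofReal (ν.nrm (f x - f y) / dist x y)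

/-- Every Lipschitz map from `N` into a `p`-Banach space extends along `ι : N → M` with the
Lipschitz constant multiplied by at most `C`. -/
def ExtendsWith (p : ℝ) {N : Type u} {M : Type w} [MetricSpace N] [MetricSpace M] (ι : N → M)
    (C : ℝ≥0∞) : Prop :=
  ∀ (Z : Type v) [AddCommGroup Z] [Module ℝ Z] (ν : PBanach p Z) (f : N → Z),
    lipConst ν f < ⊤ → ∃ F : M → Z, (∀ x, F (ι x) = f x) ∧ lipConst ν F ≤ C * lipConst ν f

/-- The `p`-trace of the isometric inclusion `ι : N → M`. -/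
noncomputable def pTrace (p : ℝ) {N : Type u} {M : Type w} [MetricSpace N] [MetricSpace M]
    (ι : N → M) : ℝ≥0∞ :=
  sInf {C : ℝ≥0∞ | 0 < C ∧ ExtendsWith.{u, v, w} p ι C}

/-- The absolute `p`-extendability constant. -/
noncomputable def ae (p : ℝ) (N : Type u) [MetricSpace N] : ℝ≥0∞ :=
  ⨆ (M : Type w) (_ : MetricSpace M) (ι : N → M) (_ : Isometry ι), pTrace.{u, v, w} p ι

/-- Every closed ball of radius `2 r` is covered by `n` closed balls of radius `r`. -/
def DoublingWith (N : Type u) [MetricSpace N] (n : ℕ) : Prop :=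
  ∀ (x : N) (r : ℝ), 0 < r → ∃ s : Finset N, s.card ≤ n ∧
    Metric.closedBall x (2 * r) ⊆ ⋃ y ∈ s, Metric.closedBall y r

/-! ### The planar `p`-norm -/

/-- The cost function. -/
noncomputable def cost (p : ℝ) (z : ℝ × ℝ) (t : ℝ) : ℝ :=
  |z.1 - t| ^ p + |z.2 - t| ^ p + |t| ^ p

/-- The infimal cost. -/
noncomputable def Q (p : ℝ) (z : ℝ × ℝ) : ℝ := ⨅ t : ℝ, cost p z t

lemma cost_nonneg (p : ℝ) (z : ℝ × ℝ) (t : ℝ) : 0 ≤ cost p z t := by
  unfold cost; positivity

lemma bdd_cost (p : ℝ) (z : ℝ × ℝ) : BddBelow (Set.range (cost p z)) :=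
  ⟨0, by rintro _ ⟨t, rfl⟩; exact cost_nonneg p z t⟩

lemma Q_nonneg (p : ℝ) (z : ℝ × ℝ) : 0 ≤ Q p z := le_ciInf fun t => cost_nonneg p z t

lemma Q_le (p : ℝ) (z : ℝ × ℝ) (t : ℝ) : Q p z ≤ cost p z t := ciInf_le (bdd_cost p z) t

lemma abs_rpow_add_le {p : ℝ} (hp : 0 < p) (hp1 : p ≤ 1) (x y : ℝ) :
    |x + y| ^ p ≤ |x| ^ p + |y| ^ p :=
  (Real.rpow_le_rpow (abs_nonneg _) (abs_add_le x y) hp.le).trans
    (Real.rpow_add_le_add_rpow (abs_nonneg _) (abs_nonneg _) hp.le hp1)

lemma fst_le_Q {p : ℝ} (hp : 0 < p) (hp1 : p ≤ 1) (z : ℝ × ℝ) : |z.1| ^ p ≤ Q p z := by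
  refine le_ciInf fun t => ?_
  have h1 := abs_rpow_add_le hp hp1 (z.1 - t) t
  rw [sub_add_cancel] at h1
  have h2 : 0 ≤ |z.2 - t| ^ p := by positivity
  unfold cost; linarith

lemma snd_le_Q {p : ℝ} (hp : 0 < p) (hp1 : p ≤ 1) (z : ℝ × ℝ) : |z.2| ^ p ≤ Q p z := by
  refine le_ciInf fun t => ?_
  have h1 := abs_rpow_add_le hp hp1 (z.2 - t) t
  rw [sub_add_cancel] at h1
  have h2 : 0 ≤ |z.1 - t| ^ p := by positivity
  unfold cost; linarith

lemma Q_le_sum {p : ℝ} (hp : 0 < p) (z : ℝ × ℝ) : Q p z ≤ |z.1| ^ p + |z.2| ^ p := by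
  have h := Q_le p z 0
  unfold cost at h
  rw [abs_zero, Real.zero_rpow hp.ne', add_zero, sub_zero, sub_zero] at h
  exact h

lemma Q_add {p : ℝ} (hp : 0 < p) (hp1 : p ≤ 1) (z z' : ℝ × ℝ) : Q p (z + z') ≤ Q p z + Q p z' := by
  have h : ∀ t t' : ℝ, Q p (z + z') ≤ cost p z t + cost p z' t' := by
    intro t t'
    refine (Q_le p _ (t + t')).trans ?_
    unfold cost
    have h1 := abs_rpow_add_le hp hp1 (z.1 - t) (z'.1 - t')
    have h2 := abs_rpow_add_le hp hp1 (z.2 - t) (z'.2 - t')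
    have h3 := abs_rpow_add_le hp hp1 t t'
    have e1 : (z + z').1 - (t + t') = z.1 - t + (z'.1 - t') := by rw [Prod.fst_add]; ring
    have e2 : (z + z').2 - (t + t') = z.2 - t + (z'.2 - t') := by rw [Prod.snd_add]; ring
    rw [e1, e2]
    linarith
  have h1 : ∀ t : ℝ, Q p (z + z') - cost p z t ≤ Q p z' := by
    intro t
    refine le_ciInf fun t' => ?_
    have := h t t'
    linarith
  have h2 : Q p (z + z') - Q p z' ≤ Q p z := by
    refine le_ciInf fun t => ?_
    have := h1 t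
    linarith
  linarith

lemma Q_smul_le {p : ℝ} {c : ℝ} (z : ℝ × ℝ) :
    Q p (c • z) ≤ |c| ^ p * Q p z := by
  unfold Q
  rw [Real.mul_iInf_of_nonneg (by positivity)]
  refine le_ciInf fun t => ?_
  refine (ciInf_le (bdd_cost p (c • z)) (c * t)).trans (le_of_eq ?_)
  unfold cost
  have e1 : (c • z).1 - c * t = c * (z.1 - t) := by
    rw [Prod.smul_fst, smul_eq_mul]; ring
  have e2 : (c • z).2 - c * t = c * (z.2 - t) := by
    rw [Prod.smul_snd, smul_eq_mul]; ring
  rw [e1, e2, abs_mul, abs_mul, abs_mul, Real.mul_rpow (abs_nonneg _) (abs_nonneg _),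
    Real.mul_rpow (abs_nonneg _) (abs_nonneg _), Real.mul_rpow (abs_nonneg _) (abs_nonneg _)]
  ring

lemma Q_zero {p : ℝ} (hp : 0 < p) : Q p 0 = 0 := by
  apply le_antisymm _ (Q_nonneg p 0)
  have := Q_le_sum hp (0 : ℝ × ℝ)
  simpa [Real.zero_rpow hp.ne'] using this

lemma Q_smul {p : ℝ} (hp : 0 < p) (c : ℝ) (z : ℝ × ℝ) : Q p (c • z) = |c| ^ p * Q p z := by
  by_cases hc : c = 0
  · subst hc
    rw [zero_smul, Q_zero hp, abs_zero, Real.zero_rpow hp.ne', zero_mul]
  · apply le_antisymm (Q_smul_le z)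
    have h1 := Q_smul_le (p := p) (c := c⁻¹) (c • z)
    rw [smul_smul, inv_mul_cancel₀ hc, one_smul] at h1
    have h2 : |c| ^ p * |c⁻¹| ^ p = 1 := by
      rw [← Real.mul_rpow (abs_nonneg _) (abs_nonneg _), ← abs_mul, mul_inv_cancel₀ hc, abs_one,
        Real.one_rpow]
    have h3 : 0 ≤ |c| ^ p := by positivity
    calc |c| ^ p * Q p z ≤ |c| ^ p * (|c⁻¹| ^ p * Q p (c • z)) := by gcongr
      _ = (|c| ^ p * |c⁻¹| ^ p) * Q p (c • z) := by ring
      _ = Q p (c • z) := by rw [h2, one_mul]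

/-- The planar `p`-norm. -/
noncomputable def nrm0 (p : ℝ) (z : ℝ × ℝ) : ℝ := Q p z ^ (1 / p)

lemma nrm0_rpow {p : ℝ} (hp : 0 < p) (z : ℝ × ℝ) : nrm0 p z ^ p = Q p z := by
  rw [nrm0, ← Real.rpow_mul (Q_nonneg p z), one_div, inv_mul_cancel₀ hp.ne', Real.rpow_one]

lemma nrm0_nonneg (p : ℝ) (z : ℝ × ℝ) : 0 ≤ nrm0 p z := Real.rpow_nonneg (Q_nonneg p z) _

lemma fst_le_nrm0 {p : ℝ} (hp : 0 < p) (hp1 : p ≤ 1) (z : ℝ × ℝ) : |z.1| ≤ nrm0 p z := by
  have h := fst_le_Q hp hp1 z
  rw [← nrm0_rpow hp] at h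
  exact (Real.rpow_le_rpow_iff (abs_nonneg _) (nrm0_nonneg p z) hp).mp h

/-- The planar `p`-Banach space, in an arbitrary universe. -/
noncomputable def planar {p : ℝ} (hp : 0 < p) (hp1 : p ≤ 1) : PBanach p (ULift.{v} (ℝ × ℝ)) where
  nrm z := nrm0 p z.down
  nonneg z := nrm0_nonneg p z.down
  pos z hz := by
    have hz' : z.down ≠ 0 := fun h => hz (by
      have : z = ULift.up z.down := rfl
      rw [this, h]; rfl)
    refine Real.rpow_pos_of_pos ?_ _
    by_contra h
    have h0 : Q p z.down = 0 := le_antisymm (not_lt.mp h) (Q_nonneg p _)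
    apply hz'
    have h1 := fst_le_Q hp hp1 z.down
    have h2 := snd_le_Q hp hp1 z.down
    rw [h0] at h1 h2
    have h3 : ∀ x : ℝ, |x| ^ p ≤ 0 → x = 0 := by
      intro x hx
      by_contra hne
      have : 0 < |x| ^ p := Real.rpow_pos_of_pos (abs_pos.mpr hne) _
      linarith
    exact Prod.ext (h3 _ h1) (h3 _ h2)
  smul c z := by
    have : (c • z).down = c • z.down := rfl
    rw [this, nrm0, Q_smul hp, Real.mul_rpow (by positivity) (Q_nonneg p _), ← Real.rpow_mul
      (abs_nonneg _), mul_one_div_cancel hp.ne', Real.rpow_one, nrm0]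
  add_le x y := by
    have : (x + y).down = x.down + y.down := rfl
    rw [this, nrm0_rpow hp, nrm0_rpow hp, nrm0_rpow hp]
    exact Q_add hp hp1 _ _
  complete s hs := by
    have hsub : ∀ x y : ULift.{v} (ℝ × ℝ), (x - y).down = x.down - y.down := fun _ _ => rfl
    simp only [hsub, nrm0_rpow hp] at hs ⊢
    have hc : ∀ (g : ℝ × ℝ → ℝ), (∀ z, |g z| ^ p ≤ Q p z) → (∀ z z', g (z - z') = g z - g z') →
        ∃ l : ℝ, Tendsto (fun n => g (s n).down) atTop (𝓝 l) := by
      intro g hg hsub'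
      apply cauchySeq_tendsto_of_complete
      rw [Metric.cauchySeq_iff]
      intro ε hε
      obtain ⟨n₀, hn₀⟩ := hs (ε ^ p) (Real.rpow_pos_of_pos hε p)
      refine ⟨n₀, fun m hm n hn => ?_⟩
      have h1 := (hg _).trans_lt (hn₀ m hm n hn)
      rw [hsub'] at h1
      rw [Real.dist_eq]
      exact (Real.rpow_lt_rpow_iff (abs_nonneg _) hε.le hp).mp h1
    obtain ⟨l1, hl1⟩ := hc Prod.fst (fst_le_Q hp hp1) (fun _ _ => rfl)
    obtain ⟨l2, hl2⟩ := hc Prod.snd (snd_le_Q hp hp1) (fun _ _ => rfl)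
    refine ⟨⟨(l1, l2)⟩, fun ε hε => ?_⟩
    set δ : ℝ := (ε / 2) ^ (1 / p) with hδ
    have hδpos : 0 < δ := Real.rpow_pos_of_pos (by linarith) _
    have hδp : δ ^ p = ε / 2 := by
      rw [hδ, ← Real.rpow_mul (by linarith), one_div, inv_mul_cancel₀ hp.ne', Real.rpow_one]
    obtain ⟨n1, hn1⟩ := (Metric.tendsto_atTop.mp hl1) δ hδpos
    obtain ⟨n2, hn2⟩ := (Metric.tendsto_atTop.mp hl2) δ hδpos
    refine ⟨max n1 n2, fun n hn => ?_⟩
    have h1 := hn1 n (le_of_max_le_left hn)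
    have h2 := hn2 n (le_of_max_le_right hn)
    rw [Real.dist_eq] at h1 h2
    have h3 := Real.rpow_lt_rpow (abs_nonneg _) h1 hp
    have h4 := Real.rpow_lt_rpow (abs_nonneg _) h2 hp
    rw [hδp] at h3 h4
    have h5 := Q_le_sum hp ((s n).down - (l1, l2))
    rw [Prod.fst_sub, Prod.snd_sub] at h5
    linarith

/-- A vector of small planar `p`-norm is close to one of three lines. -/
lemma near_lines {p : ℝ} (hp : 0 < p) {R : ℝ} (hR : 0 ≤ R) (hpR : (8 * R) ^ p < 2)
    {z : ℝ × ℝ} (hz : nrm0 p z ≤ R) : |z.1| < 1 / 4 ∨ |z.2| < 1 / 4 ∨ |z.1 - z.2| < 1 / 4 := by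
  have h1 : Q p z < 2 * (1 / 8 : ℝ) ^ p := by
    have h2 : Q p z ≤ R ^ p := by
      rw [← nrm0_rpow hp]
      exact Real.rpow_le_rpow (nrm0_nonneg p z) hz hp.le
    have h3 : R ^ p = (8 * R) ^ p * (1 / 8 : ℝ) ^ p := by
      rw [← Real.mul_rpow (by positivity) (by norm_num)]
      congr 1; ring
    have h4 : 0 < (1 / 8 : ℝ) ^ p := by positivity
    rw [h3] at h2
    exact h2.trans_lt (by gcongr)
  obtain ⟨t, ht⟩ := exists_lt_of_ciInf_lt h1
  unfold cost at ht
  have key : ∀ x : ℝ, 1 / 8 ≤ |x| → (1 / 8 : ℝ) ^ p ≤ |x| ^ p := by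
    intro x hx
    exact Real.rpow_le_rpow (by norm_num) hx hp.le
  have p1 : 0 ≤ |z.1 - t| ^ p := by positivity
  have p2 : 0 ≤ |z.2 - t| ^ p := by positivity
  have p3 : 0 ≤ |t| ^ p := by positivity
  rcases lt_or_ge |z.1 - t| (1 / 8) with ha | ha
  · rcases lt_or_ge |z.2 - t| (1 / 8) with hb | hb
    · right; right
      have : z.1 - z.2 = (z.1 - t) - (z.2 - t) := by ring
      rw [this]
      rw [abs_lt] at *
      constructor <;> linarith
    · rcases lt_or_ge |t| (1 / 8) with hc | hc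
      · left
        rw [abs_lt] at *
        constructor <;> linarith
      · have := key _ hb
        have := key _ hc
        linarith
  · rcases lt_or_ge |z.2 - t| (1 / 8) with hb | hb
    · rcases lt_or_ge |t| (1 / 8) with hc | hc
      · right; left
        rw [abs_lt] at hb hc ⊢
        constructor <;> linarith
      · have := key _ ha
        have := key _ hc
        linarith
    · have := key _ ha
      have := key _ hb
      linarith

/-- The three-point subset `{0, 1, 3}` of the real line. -/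
abbrev threePts : Set ℝ := {0, 1, 3}


lemma mem0 : (0 : ℝ) ∈ threePts := by simp [threePts]
lemma mem1 : (1 : ℝ) ∈ threePts := by simp [threePts]
lemma mem3 : (3 : ℝ) ∈ threePts := by simp [threePts]

/-- The three points, lifted to an arbitrary universe. -/
abbrev N0 : Type u := ULift.{u} threePts

def n0 : N0.{u} := ⟨⟨0, mem0⟩⟩
def n1 : N0.{u} := ⟨⟨1, mem1⟩⟩
def n3 : N0.{u} := ⟨⟨3, mem3⟩⟩

lemma cases3 (x : N0.{u}) : x = n0 ∨ x = n1 ∨ x = n3 := by
  obtain ⟨⟨x, hx⟩⟩ := x
  simp only [threePts, Set.mem_insert_iff, Set.mem_singleton_iff] at hx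
  rcases hx with rfl | rfl | rfl
  · exact Or.inl rfl
  · exact Or.inr (Or.inl rfl)
  · exact Or.inr (Or.inr rfl)

lemma dist_N0 (x y : N0.{u}) : dist x y = |(x.down : ℝ) - (y.down : ℝ)| := rfl

/-- The target points of the three points. -/
noncomputable def f0 (x : N0.{u}) : ULift.{v} (ℝ × ℝ) :=
  ⟨(if (x.down : ℝ) = 0 then 0 else 1, if (x.down : ℝ) = 3 then 1 else 0)⟩

lemma f0_n0 : f0.{u, v} n0 = ⟨(0, 0)⟩ := by
  simp [f0, n0]

lemma f0_n1 : f0.{u, v} n1 = ⟨(1, 0)⟩ := by
  simp [f0, n1]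

lemma f0_n3 : f0.{u, v} n3 = ⟨(1, 1)⟩ := by
  simp [f0, n3]

lemma Q_le_one {p : ℝ} (hp : 0 < p) (z : ℝ × ℝ) (t : ℝ)
    (h : cost p z t ≤ 1) : nrm0 p z ≤ 1 := by
  unfold nrm0
  exact Real.rpow_le_one (Q_nonneg p z) ((Q_le p z t).trans h) (by positivity)

lemma lip_f0 {p : ℝ} (hp : 0 < p) (hp1 : p ≤ 1) :
    lipConst (planar.{v} hp hp1) (f0.{u, v}) ≤ 1 := by
  have h0p : (0 : ℝ) ^ p = 0 := Real.zero_rpow hp.ne'
  have key : ∀ x y : N0.{u}, x ≠ y →
      (planar.{v} hp hp1).nrm (f0.{u, v} x - f0.{u, v} y) ≤ 1 ∧ 1 ≤ dist x y := by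
    intro x y hxy
    have hsub : (planar.{v} hp hp1).nrm (f0.{u, v} x - f0.{u, v} y)
        = nrm0 p ((f0.{u, v} x).down - (f0.{u, v} y).down) := rfl
    rw [hsub]
    rcases cases3 x with rfl | rfl | rfl <;> rcases cases3 y with rfl | rfl | rfl
    · exact absurd rfl hxy
    · constructor
      · rw [f0_n0, f0_n1]
        refine Q_le_one hp _ 0 ?_
        simp [cost, h0p]
      · rw [dist_N0]; simp [n0, n1]
    · constructor
      · rw [f0_n0, f0_n3]
        refine Q_le_one hp _ (-1) ?_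
        simp [cost, h0p]
      · rw [dist_N0]; simp [n0, n3]
    · constructor
      · rw [f0_n0, f0_n1]
        refine Q_le_one hp _ 0 ?_
        simp [cost, h0p]
      · rw [dist_N0]; simp [n0, n1]
    · exact absurd rfl hxy
    · constructor
      · rw [f0_n1, f0_n3]
        refine Q_le_one hp _ 0 ?_
        simp [cost, h0p]
      · rw [dist_N0]; norm_num [n1, n3, abs_of_nonneg, abs_of_nonpos]
    · constructor
      · rw [f0_n0, f0_n3]
        refine Q_le_one hp _ 1 ?_
        simp [cost, h0p]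
      · rw [dist_N0]; simp [n0, n3]
    · constructor
      · rw [f0_n1, f0_n3]
        refine Q_le_one hp _ 0 ?_
        simp [cost, h0p]
      · rw [dist_N0]; norm_num [n1, n3, abs_of_nonneg, abs_of_nonpos]
    · exact absurd rfl hxy
  unfold lipConst
  refine iSup_le fun x => iSup_le fun y => iSup_le fun hxy => ?_
  obtain ⟨h1, h2⟩ := key x y hxy
  have h3 : (planar.{v} hp hp1).nrm (f0.{u, v} x - f0.{u, v} y) / dist x y ≤ 1 := by
    rw [div_le_one (by linarith)]; linarith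
  calc ENNReal.ofReal _ ≤ ENNReal.ofReal 1 := ENNReal.ofReal_le_ofReal h3
    _ = 1 := ENNReal.ofReal_one

/-- The inclusion of the three points into the real line. -/
def incl (x : N0.{u}) : ULift.{w} ℝ := ⟨(x.down : ℝ)⟩

lemma isometry_incl : Isometry incl.{u, w} := by
  apply Isometry.of_dist_eq
  intro x y
  rfl

lemma nrm_le_of_lipConst {p : ℝ} {Z : Type v} [AddCommGroup Z] [Module ℝ Z]
    (ν : PBanach p Z) {M : Type w} [MetricSpace M] (F : M → Z) {C : ℝ} (hC : 0 ≤ C)
    (h : lipConst ν F ≤ ENNReal.ofReal C) (x y : M) : ν.nrm (F x - F y) ≤ C * dist x y := by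
  by_cases hxy : x = y
  · subst hxy
    rw [sub_self, dist_self, mul_zero]
    have := ν.smul 0 (0 : Z)
    rw [smul_zero, abs_zero, zero_mul] at this
    exact this.le
  · have h1 : ENNReal.ofReal (ν.nrm (F x - F y) / dist x y) ≤ ENNReal.ofReal C := by
      refine le_trans ?_ h
      unfold lipConst
      exact le_iSup_of_le x (le_iSup_of_le y (le_iSup_of_le hxy le_rfl))
    rw [ENNReal.ofReal_le_ofReal_iff hC, div_le_iff₀ (dist_pos.mpr hxy)] at h1
    exact h1

/-- No extension with a small constant. -/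
lemma no_ext {p : ℝ} (hp : 0 < p) (hp1 : p ≤ 1) {C : ℝ} (hC : 0 ≤ C)
    (hpC : (24 * C) ^ p < 2) (F : ULift.{w} ℝ → ULift.{v} (ℝ × ℝ))
    (hF : ∀ x : N0.{u}, F (incl x) = f0 x)
    (hlip : ∀ x y, (planar.{v} hp hp1).nrm (F x - F y) ≤ C * dist x y) : False := by
  have hn : ∀ x y, nrm0 p ((F x).down - (F y).down) ≤ C * dist x y := hlip
  set g : ℝ → ℝ := fun t => (F ⟨t⟩).down.1 with hg
  have hgl : ∀ s t : ℝ, |g s - g t| ≤ C * |s - t| := by
    intro s t
    have h1 := fst_le_nrm0 hp hp1 ((F ⟨s⟩).down - (F ⟨t⟩).down)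
    exact h1.trans (hn ⟨s⟩ ⟨t⟩)
  have hgc : Continuous g := by
    have : LipschitzWith (Real.toNNReal C) g := by
      apply LipschitzWith.of_dist_le_mul
      intro s t
      rw [Real.coe_toNNReal C hC, Real.dist_eq, Real.dist_eq]
      exact hgl s t
    exact this.continuous
  have hF0 : F ⟨0⟩ = ⟨(0, 0)⟩ := by rw [← f0_n0.{u, v}]; exact hF n0
  have hF1 : F ⟨1⟩ = ⟨(1, 0)⟩ := by rw [← f0_n1.{u, v}]; exact hF n1
  have hF3 : F ⟨3⟩ = ⟨(1, 1)⟩ := by rw [← f0_n3.{u, v}]; exact hF n3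
  have hg0 : g 0 = 0 := by simp only [hg]; rw [hF0]
  have hg1 : g 1 = 1 := by simp only [hg]; rw [hF1]
  obtain ⟨t, ht, hgt⟩ : ∃ t ∈ Set.Icc (0 : ℝ) 1, g t = 1 / 2 := by
    have := intermediate_value_Icc (zero_le_one : (0 : ℝ) ≤ 1) hgc.continuousOn
    rw [hg0, hg1] at this
    exact this ⟨by norm_num, by norm_num⟩
  obtain ⟨ht0, ht1⟩ := ht
  set z : ℝ × ℝ := (F ⟨t⟩).down with hz
  have hz1 : z.1 = 1 / 2 := hgt
  have hR : (0 : ℝ) ≤ 3 * C := by linarith
  have hpR : (8 * (3 * C)) ^ p < 2 := by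
    have : 8 * (3 * C) = 24 * C := by ring
    rw [this]; exact hpC
  have d : ∀ s : ℝ, dist (ULift.up t : ULift.{w} ℝ) ⟨s⟩ = |t - s| := fun s => rfl
  have b0 : nrm0 p (z - (0, 0)) ≤ 3 * C := by
    have h1 := hn ⟨t⟩ ⟨0⟩
    rw [hF0, d] at h1
    refine h1.trans ?_
    have : |t - 0| ≤ 3 := by rw [abs_le]; constructor <;> linarith
    nlinarith
  have b1 : nrm0 p (z - (1, 0)) ≤ 3 * C := by
    have h1 := hn ⟨t⟩ ⟨1⟩
    rw [hF1, d] at h1
    refine h1.trans ?_
    have : |t - 1| ≤ 3 := by rw [abs_le]; constructor <;> linarith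
    nlinarith
  have b3 : nrm0 p (z - (1, 1)) ≤ 3 * C := by
    have h1 := hn ⟨t⟩ ⟨3⟩
    rw [hF3, d] at h1
    refine h1.trans ?_
    have : |t - 3| ≤ 3 := by rw [abs_le]; constructor <;> linarith
    nlinarith
  have c0 := near_lines hp hR hpR b0
  have c1 := near_lines hp hR hpR b1
  have c3 := near_lines hp hR hpR b3
  simp only [Prod.fst_sub, Prod.snd_sub, hz1, sub_zero] at c0 c1 c3
  set b := z.2
  have hb : |b| < 1 / 4 := by
    rcases c0 with h | h | h
    · exfalso
      rw [abs_lt] at h; linarith [h.2]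
    · exact h
    · rcases c1 with h' | h' | h'
      · exfalso
        rw [abs_lt] at h'; linarith [h'.1]
      · exact h'
      · exfalso
        rw [abs_lt] at h h'
        linarith [h.1, h.2, h'.1, h'.2]
  rw [abs_lt] at hb
  rcases c3 with h | h | h
  · rw [abs_lt] at h; linarith [h.1]
  · rw [abs_lt] at h; linarith [h.1, hb.2]
  · rw [abs_lt] at h; linarith [h.1, h.2, hb.2]

/-- Exponential lower bound for the absolute `p`-extendability constant of three points. -/
lemma lower_ae {p : ℝ} (hp : 0 < p) (hp1 : p ≤ 1) :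
    ENNReal.ofReal (2 ^ (1 / p) / 24) ≤ ae.{u, v, w} p N0.{u} := by
  have h1 : ENNReal.ofReal (2 ^ (1 / p) / 24) ≤ pTrace.{u, v, w} p incl.{u, w} := by
    refine le_sInf ?_
    rintro C ⟨_, hC⟩
    by_contra hlt
    rw [not_le] at hlt
    have hCtop : C ≠ ⊤ := ne_top_of_lt hlt
    have hCr : C.toReal < 2 ^ (1 / p) / 24 := by
      rw [ENNReal.lt_ofReal_iff_toReal_lt hCtop] at hlt
      exact hlt
    have hf := lip_f0.{u, v} hp hp1
    obtain ⟨F, hF1, hF2⟩ := hC _ (planar.{v} hp hp1) f0 (hf.trans_lt ENNReal.one_lt_top)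
    have hF3 : lipConst (planar.{v} hp hp1) F ≤ ENNReal.ofReal C.toReal := by
      rw [ENNReal.ofReal_toReal hCtop]
      calc lipConst (planar.{v} hp hp1) F ≤ C * lipConst (planar.{v} hp hp1) f0.{u, v} := hF2
        _ ≤ C * 1 := by gcongr
        _ = C := mul_one C
    refine no_ext hp hp1 ENNReal.toReal_nonneg ?_ F hF1
      (nrm_le_of_lipConst _ F ENNReal.toReal_nonneg hF3)
    have h2 : 24 * C.toReal < 2 ^ (1 / p) := by linarith
    have h3 := Real.rpow_lt_rpow (by positivity) h2 hp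
    rw [← Real.rpow_mul (by norm_num), one_div, inv_mul_cancel₀ hp.ne', Real.rpow_one] at h3
    exact h3
  refine h1.trans ?_
  unfold ae
  exact le_iSup_of_le (ULift.{w} ℝ) (le_iSup_of_le inferInstance
    (le_iSup_of_le incl (le_iSup_of_le isometry_incl le_rfl)))

lemma clamp_id (x : ℝ) : min x 1 + max 1 (min x 3) = 1 + min x 3 := by
  rcases le_total x 1 with h | h
  · rw [min_eq_left h, min_eq_left (by linarith : x ≤ 3), max_eq_left h]; ring
  · rw [min_eq_right h, max_eq_right (le_min h (by norm_num))]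

lemma clamp_ineq_aux {a b : ℝ} (h : a ≤ b) :
    |min a 1 - min b 1| + |max 1 (min a 3) - max 1 (min b 3)| ≤ |a - b| := by
  have h1 : min a 1 ≤ min b 1 := min_le_min_right 1 h
  have h3 : min a 3 ≤ min b 3 := min_le_min_right 3 h
  have h2 : max 1 (min a 3) ≤ max 1 (min b 3) := max_le_max_left 1 h3
  have h4 : min b 3 - min a 3 ≤ b - a := by
    rcases le_total b 3 with h5 | h5
    · rw [min_eq_left h5, min_eq_left (h.trans h5)]
    · rw [min_eq_right h5]
      rcases le_total a 3 with h6 | h6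
      · rw [min_eq_left h6]; linarith
      · rw [min_eq_right h6]; linarith
  rw [abs_of_nonpos (by linarith), abs_of_nonpos (by linarith), abs_of_nonpos (by linarith)]
  have ia := clamp_id a
  have ib := clamp_id b
  linarith

lemma clamp_ineq (a b : ℝ) :
    |min a 1 - min b 1| + |max 1 (min a 3) - max 1 (min b 3)| ≤ |a - b| := by
  rcases le_total a b with h | h
  · exact clamp_ineq_aux h
  · rw [abs_sub_comm (min a 1), abs_sub_comm (max 1 (min a 3)), abs_sub_comm a]
    exact clamp_ineq_aux h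

/-- The three-point space is absolutely `1`-extendable with constant one. -/
lemma ae_one_le : ae.{u, v, w} 1 N0.{u} ≤ 1 := by
  unfold ae
  refine iSup_le fun M => iSup_le fun _ => iSup_le fun ι => iSup_le fun hι => ?_
  refine sInf_le ⟨zero_lt_one, ?_⟩
  intro Z _ _ ν f hf
  set L : ℝ := (lipConst ν f).toReal with hL
  have hL0 : 0 ≤ L := ENNReal.toReal_nonneg
  have hfL : lipConst ν f = ENNReal.ofReal L := (ENNReal.ofReal_toReal hf.ne).symm
  have hfl := nrm_le_of_lipConst ν f hL0 hfL.le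
  have hadd : ∀ x y, ν.nrm (x + y) ≤ ν.nrm x + ν.nrm y := by
    intro x y
    have := ν.add_le x y
    simpa only [Real.rpow_one] using this
  set g : M → ℝ := fun m => dist m (ι n0) with hg
  have hgl : ∀ m m', |g m - g m'| ≤ dist m m' := fun m m' => abs_dist_sub_le m m' (ι n0)
  set F : M → Z := fun m => f n0 + (min (g m) 1) • (f n1 - f n0)
    + ((max 1 (min (g m) 3) - 1) / 2) • (f n3 - f n1) with hF
  have e01 : ν.nrm (f n1 - f n0) ≤ L := by
    have h1 := hfl n1 n0
    rw [dist_N0] at h1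
    simpa [n0, n1] using h1
  have e13 : ν.nrm (f n3 - f n1) ≤ L * 2 := by
    have h1 := hfl n3 n1
    rw [dist_N0] at h1
    have : |((n3.{u}).down : ℝ) - ((n1.{u}).down : ℝ)| = 2 := by
      norm_num [n1, n3]
    rw [this] at h1
    exact h1
  refine ⟨F, ?_, ?_⟩
  · intro x
    have hgx : g (ι x) = (x.down : ℝ) := by
      simp only [hg]
      rw [hι.dist_eq, dist_N0]
      rcases cases3 x with rfl | rfl | rfl <;> simp [n0, n1, n3]
    simp only [hF, hgx]
    rcases cases3 x with rfl | rfl | rfl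
    · have : ((n0.{u}).down : ℝ) = 0 := rfl
      rw [this]
      norm_num
    · have : ((n1.{u}).down : ℝ) = 1 := rfl
      rw [this]
      norm_num
    · have : ((n3.{u}).down : ℝ) = 3 := rfl
      rw [this]
      norm_num
  · rw [one_mul, hfL]
    unfold lipConst
    refine iSup_le fun m => iSup_le fun m' => iSup_le fun hne => ?_
    apply ENNReal.ofReal_le_ofReal
    rw [div_le_iff₀ (dist_pos.mpr hne)]
    have hdiff : F m - F m' = (min (g m) 1 - min (g m') 1) • (f n1 - f n0)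
        + ((max 1 (min (g m) 3) - max 1 (min (g m') 3)) / 2) • (f n3 - f n1) := by
      simp only [hF]
      module
    rw [hdiff]
    refine (hadd _ _).trans ?_
    rw [ν.smul, ν.smul, abs_div, abs_two]
    have h1 := clamp_ineq (g m) (g m')
    have h2 := hgl m m'
    have a1 := abs_nonneg (min (g m) 1 - min (g m') 1)
    have a2 := abs_nonneg (max 1 (min (g m) 3) - max 1 (min (g m') 3))
    calc |min (g m) 1 - min (g m') 1| * ν.nrm (f n1 - f n0)
          + |max 1 (min (g m) 3) - max 1 (min (g m') 3)| / 2 * ν.nrm (f n3 - f n1)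
        ≤ |min (g m) 1 - min (g m') 1| * L
          + |max 1 (min (g m) 3) - max 1 (min (g m') 3)| / 2 * (L * 2) := by gcongr
      _ = L * (|min (g m) 1 - min (g m') 1|
          + |max 1 (min (g m) 3) - max 1 (min (g m') 3)|) := by ring
      _ ≤ L * dist m m' := by
          apply mul_le_mul_of_nonneg_left _ hL0
          linarith

lemma doubling_N0 {n : ℕ} (hn : 2 ≤ n) : DoublingWith N0.{u} n := by
  classical
  intro x r hr
  rcases le_or_gt 1 r with h | h
  · refine ⟨{n0, n3}, (Finset.card_le_two).trans hn, ?_⟩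
    intro y _
    simp only [Finset.mem_insert, Finset.mem_singleton, Set.iUnion_iUnion_eq_or_left,
      Set.iUnion_iUnion_eq_left, Set.mem_union, Metric.mem_closedBall]
    rcases cases3 y with rfl | rfl | rfl
    · left; rw [dist_self]; exact hr.le
    · left; rw [dist_N0]; simpa [n0, n1] using h
    · right; rw [dist_self]; exact hr.le
  · rcases cases3 x with hx | hx | hx
    all_goals
      first
      | (refine ⟨{n0, n1}, (Finset.card_le_two).trans hn, ?_⟩
         intro y hy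
         rw [Metric.mem_closedBall, dist_N0] at hy
         simp only [Finset.mem_insert, Finset.mem_singleton, Set.iUnion_iUnion_eq_or_left,
           Set.iUnion_iUnion_eq_left, Set.mem_union, Metric.mem_closedBall]
         rcases cases3 y with rfl | rfl | rfl
         · left; rw [dist_self]; exact hr.le
         · right; rw [dist_self]; exact hr.le
         · exfalso
           subst hx
           norm_num [n0, n1, n3] at hy
           linarith)
      | (refine ⟨{n3}, by simp; omega, ?_⟩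
         intro y hy
         rw [Metric.mem_closedBall, dist_N0] at hy
         simp only [Finset.mem_singleton, Set.iUnion_iUnion_eq_left, Metric.mem_closedBall]
         rcases cases3 y with rfl | rfl | rfl
         · exfalso
           subst hx
           norm_num [n0, n1, n3] at hy
           linarith
         · exfalso
           subst hx
           norm_num [n0, n1, n3] at hy
           linarith
         · rw [dist_self]; exact hr.le)

lemma tendsto_lower : Tendsto (fun p : ℝ => ENNReal.ofReal (2 ^ (1 / p) / 24)) (𝓝[>] 0) (𝓝 ⊤) := by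
  have h1 : Tendsto (fun p : ℝ => 1 / p) (𝓝[>] 0) atTop := by
    simpa using tendsto_inv_nhdsGT_zero (𝕜 := ℝ)
  have h2 : Tendsto (fun x : ℝ => (2 : ℝ) ^ x / 24) atTop atTop :=
    (tendsto_rpow_atTop_of_base_gt_one 2 (by norm_num)).atTop_div_const (by norm_num)
  exact ENNReal.tendsto_ofReal_atTop.comp (h2.comp h1)

lemma one_le_ae {p : ℝ} (hp : 0 < p) (hp1 : p ≤ 1) : 1 ≤ ae.{u, v, w} p N0.{u} := by
  have h1 : 1 ≤ pTrace.{u, v, w} p incl.{u, w} := by
    refine le_sInf ?_
    rintro C ⟨_, hC⟩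
    have hf := lip_f0.{u, v} hp hp1
    obtain ⟨F, hF1, hF2⟩ := hC _ (planar.{v} hp hp1) f0 (hf.trans_lt ENNReal.one_lt_top)
    have hle : lipConst (planar.{v} hp hp1) f0.{u, v} ≤ lipConst (planar.{v} hp hp1) F := by
      unfold lipConst
      refine iSup_le fun x => iSup_le fun y => iSup_le fun hxy => ?_
      refine le_iSup_of_le (incl x) (le_iSup_of_le (incl y) (le_iSup_of_le ?_ ?_))
      · exact fun h => hxy (isometry_incl.injective h)
      · rw [hF1, hF1, isometry_incl.dist_eq]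
    have hpos : lipConst (planar.{v} hp hp1) f0.{u, v} ≠ 0 := by
      intro h0
      have h2 := nrm_le_of_lipConst (planar.{v} hp hp1) f0.{u, v} le_rfl
        (by rw [h0, ENNReal.ofReal_zero]) n1 n0
      rw [zero_mul] at h2
      have h3 := (planar.{v} hp hp1).pos (f0.{u, v} n1 - f0.{u, v} n0) (by
        rw [f0_n0, f0_n1]
        intro h4
        have h5 := congrArg (fun z : ULift.{v} (ℝ × ℝ) => z.down.1) h4
        simp at h5)
      linarith
    have htop : lipConst (planar.{v} hp hp1) f0.{u, v} ≠ ⊤ :=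
      (hf.trans_lt ENNReal.one_lt_top).ne
    have h2 := hle.trans hF2
    by_contra hlt
    rw [not_le] at hlt
    have h3 : C * lipConst (planar.{v} hp hp1) f0.{u, v}
        < 1 * lipConst (planar.{v} hp hp1) f0.{u, v} :=
      ENNReal.mul_lt_mul_left hpos htop hlt
    rw [one_mul] at h3
    exact absurd h2 (not_le.mpr h3)
  refine h1.trans ?_
  unfold ae
  exact le_iSup_of_le (ULift.{w} ℝ) (le_iSup_of_le inferInstance
    (le_iSup_of_le incl (le_iSup_of_le isometry_incl le_rfl)))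

lemma ae_one_eq : ae.{u, v, w} 1 N0.{u} = 1 :=
  le_antisymm ae_one_le (one_le_ae one_pos le_rfl)

lemma card_N0 : Nat.card N0.{u} = 3 := by
  have h1 : Nat.card N0.{u} = Nat.card threePts := Nat.card_congr Equiv.ulift
  rw [h1, Nat.card_coe_set_eq, threePts, Set.ncard_eq_toFinset_card']
  norm_num [Set.toFinset_insert, Finset.card_insert_of_notMem]

/-- The answer to Q1: already the three-point space `{0, 1, 3}`, which has doubling constant at
most two, satisfies `ae_1 = 1` and `ae_p ≥ 2 ^ (1 / p) / 24` for all `0 < p ≤ 1`; in particular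
for every `n ≥ 2` the supremum over doubling spaces with `λ ≤ n` of the limits is infinite. -/
theorem result :
    (∃ (N : Type u) (_ : MetricSpace N), Nat.card N = 3 ∧ DoublingWith N 2 ∧
      ae.{u, v, w} 1 N = 1 ∧
      ∀ p : ℝ, 0 < p → p ≤ 1 → ENNReal.ofReal (2 ^ (1 / p) / 24) ≤ ae.{u, v, w} p N) ∧
    ∀ n : ℕ, 2 ≤ n →
      sSup {L : ℝ≥0∞ | ∃ (N : Type u) (_ : MetricSpace N), DoublingWith N n ∧
        Tendsto (fun p : ℝ => ae.{u, v, w} p N / ae.{u, v, w} 1 N) (𝓝[>] 0) (𝓝 L)} = ⊤ := by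
  refine ⟨⟨N0.{u}, inferInstance, card_N0, doubling_N0 le_rfl, ae_one_eq, fun p hp hp1 =>
    lower_ae hp hp1⟩, fun n hn => ?_⟩
  apply top_unique
  refine le_sSup ⟨N0.{u}, inferInstance, doubling_N0 hn, ?_⟩
  rw [ae_one_eq]
  simp only [div_one]
  refine tendsto_of_tendsto_of_tendsto_of_le_of_le' tendsto_lower tendsto_const_nhds ?_
    (Eventually.of_forall fun _ => le_top)
  have h1 : Set.Ioc (0 : ℝ) 1 ∈ 𝓝[>] (0 : ℝ) := Ioc_mem_nhdsGT one_pos
  filter_upwards [h1] with p hp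
  exact lower_ae hp.1 hp.2

end Pool.Agent.Results.MP_d7144b_an.LimitInfinite
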